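import Pool.Agent.Run7.h802.FH.Iface

/-! Project FH (helper802), piece LAG: Lagrange interpolation with bounded coefficients. -/

set_option autoImplicit false

namespace Pool.Agent.Run7.h216.FH

open Polynomial Pool.Agent.Run7.h802.FH

lemma coeff_div_le (G : ℂ[X]) (M : ℝ) (hM : ∀ k, ‖G.coeff k‖ ≤ M) (y : ℂ) (hy : G.IsRoot y)
    (j : ℕ) : ‖(G /ₘ (X - C y)).coeff j‖ ≤ G.natDegree * M := by
  have hM0 : 0 ≤ M := le_trans (norm_nonneg _) (hM 0)
  rw [coeff_divByMonic_X_sub_C]
  by_cases hj : G.natDegree ≤ j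
  · rw [Finset.Icc_eq_empty (by omega), Finset.sum_empty, norm_zero]
    positivity
  push Not at hj
  rcases le_or_gt ‖y‖ 1 with h1 | h1
  · calc ‖∑ i ∈ Finset.Icc (j + 1) G.natDegree, y ^ (i - (j + 1)) * G.coeff i‖
        ≤ ∑ i ∈ Finset.Icc (j + 1) G.natDegree, ‖y ^ (i - (j + 1)) * G.coeff i‖ := norm_sum_le _ _
      _ ≤ ∑ i ∈ Finset.Icc (j + 1) G.natDegree, M := by
          refine Finset.sum_le_sum fun i _ => ?_
          rw [norm_mul, norm_pow]
          calc ‖y‖ ^ (i - (j + 1)) * ‖G.coeff i‖ ≤ 1 * M :=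
                mul_le_mul (pow_le_one₀ (norm_nonneg _) h1) (hM i) (norm_nonneg _) zero_le_one
            _ = M := one_mul M
      _ = ((G.natDegree + 1 - (j + 1) : ℕ) : ℝ) * M := by
          rw [Finset.sum_const, Nat.card_Icc, nsmul_eq_mul]
      _ ≤ G.natDegree * M := by
          refine mul_le_mul_of_nonneg_right ?_ hM0
          exact_mod_cast (by omega : G.natDegree + 1 - (j + 1) ≤ G.natDegree)
  · have hy0 : 0 < ‖y‖ := lt_trans zero_lt_one h1
    have e1 : y ^ (j + 1) * ∑ i ∈ Finset.Icc (j + 1) G.natDegree, y ^ (i - (j + 1)) * G.coeff i =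
        -∑ i ∈ Finset.range (j + 1), G.coeff i * y ^ i := by
      have h2 : G.eval y = 0 := hy
      rw [eval_eq_sum_range, ← Finset.sum_range_add_sum_Ico _ (by omega : j + 1 ≤ G.natDegree + 1)] at h2
      rw [eq_neg_iff_add_eq_zero, add_comm, ← h2]
      congr 1
      rw [Finset.mul_sum]
      refine Finset.sum_congr (by ext i; simp only [Finset.mem_Icc, Finset.mem_Ico]; omega) ?_
      intro i hi
      have h3 : j + 1 ≤ i := (Finset.mem_Ico.1 hi).1
      rw [← mul_assoc, ← pow_add, Nat.add_sub_cancel' h3, mul_comm]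
    have e2 : ‖y‖ ^ (j + 1) * ‖∑ i ∈ Finset.Icc (j + 1) G.natDegree, y ^ (i - (j + 1)) * G.coeff i‖ ≤
        ‖y‖ ^ (j + 1) * (G.natDegree * M) := by
      rw [← norm_pow, ← norm_mul, e1, norm_neg, norm_pow]
      calc ‖∑ i ∈ Finset.range (j + 1), G.coeff i * y ^ i‖
          ≤ ∑ i ∈ Finset.range (j + 1), ‖G.coeff i * y ^ i‖ := norm_sum_le _ _
        _ ≤ ∑ i ∈ Finset.range (j + 1), M * ‖y‖ ^ (j + 1) := by
            refine Finset.sum_le_sum fun i hi => ?_
            rw [norm_mul, norm_pow]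
            refine mul_le_mul (hM i) ?_ (by positivity) hM0
            exact pow_le_pow_right₀ h1.le (by have := Finset.mem_range.1 hi; omega)
        _ = ((j + 1 : ℕ) : ℝ) * (M * ‖y‖ ^ (j + 1)) := by
            rw [Finset.sum_const, Finset.card_range, nsmul_eq_mul]
        _ ≤ G.natDegree * (M * ‖y‖ ^ (j + 1)) := by
            refine mul_le_mul_of_nonneg_right ?_ (by positivity)
            exact_mod_cast (by omega : j + 1 ≤ G.natDegree)
        _ = ‖y‖ ^ (j + 1) * (G.natDegree * M) := by ring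
    exact le_of_mul_le_mul_left e2 (by positivity)

theorem t_LAG : S_LAG := by
  intro G Q M hQ hG hM j
  have hM0 : 0 ≤ M := le_trans (norm_nonneg _) (hM 0)
  have hG0 : G ≠ 0 := by
    rintro rfl
    simp at hQ
  have hcard : Multiset.card G.roots = G.natDegree :=
    (splits_iff_card_roots.1 (IsAlgClosed.splits G))
  set s := G.roots.toFinset with hs
  have hscard : s.card = G.natDegree := by
    rw [hs, Multiset.toFinset_card_of_nodup hG, hcard]
  have hroot : ∀ y ∈ s, G.IsRoot y := by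
    intro y hy
    rw [hs, Multiset.mem_toFinset, mem_roots hG0] at hy
    exact hy
  have hdeg : G.degree = (s.card : WithBot ℕ) := by
    rw [hscard, degree_eq_natDegree hG0]
  have hval : ∀ y ∈ s, (G /ₘ (X - C y)).eval y = G.derivative.eval y := by
    intro y hy
    have h1 := mul_divByMonic_eq_iff_isRoot.2 (hroot y hy)
    have h2 := congrArg (fun P => (derivative P).eval y) h1
    simp only [derivative_mul, derivative_sub, derivative_X, derivative_C, sub_zero, one_mul,
      eval_add, eval_mul, eval_sub, eval_X, eval_C, sub_self, zero_mul, add_zero] at h2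
    exact h2
  have hval0 : ∀ y ∈ s, ∀ z ∈ s, z ≠ y → (G /ₘ (X - C y)).eval z = 0 := by
    intro y hy z hz hzy
    have h1 := mul_divByMonic_eq_iff_isRoot.2 (hroot y hy)
    have h2 := congrArg (fun P => P.eval z) h1
    simp only [eval_mul, eval_sub, eval_X, eval_C] at h2
    rw [show G.eval z = 0 from hroot z hz] at h2
    rcases mul_eq_zero.1 h2 with h3 | h3
    · exact absurd (sub_eq_zero.1 h3) hzy
    · exact h3
  have hder : ∀ y ∈ s, G.derivative.eval y ≠ 0 := by
    intro y hy h0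
    have h1 : 1 < G.rootMultiplicity y :=
      (one_lt_rootMultiplicity_iff_isRoot hG0).2 ⟨hroot y hy, h0⟩
    have h2 := (Multiset.nodup_iff_count_le_one.1 hG) y
    rw [count_roots] at h2
    omega
  have key : Q = ∑ y ∈ s, C (Q.eval y / G.derivative.eval y) * (G /ₘ (X - C y)) := by
    refine eq_of_degrees_lt_of_eval_finset_eq s ?_ ?_ ?_
    · rw [hscard]
      exact lt_of_le_of_lt degree_le_natDegree (by exact_mod_cast hQ)
    · refine lt_of_le_of_lt (degree_sum_le _ _) ?_
      rw [Finset.sup_lt_iff (by exact WithBot.bot_lt_coe _)]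
      intro y hy
      rw [← hdeg]
      rw [C_mul']
      refine lt_of_le_of_lt (degree_smul_le _ _) ?_
      exact degree_divByMonic_lt G (X - C y) hG0 (by rw [degree_X_sub_C]; exact zero_lt_one)
    · intro z hz
      rw [eval_finsetSum, Finset.sum_eq_single z]
      · rw [eval_mul, eval_C, hval z hz, div_mul_cancel₀ _ (hder z hz)]
      · intro y hy hyz
        rw [eval_mul, hval0 y hy z hz (Ne.symm hyz), mul_zero]
      · intro h
        exact absurd hz h
  have hsum : (G.roots.map fun y => ‖Q.eval y‖ ^ 2 / ‖G.derivative.eval y‖ ^ 2).sum =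
      ∑ y ∈ s, ‖Q.eval y / G.derivative.eval y‖ ^ 2 := by
    rw [hs, Finset.sum_multiset_map_count]
    refine Finset.sum_congr rfl ?_
    intro y hy
    rw [Multiset.count_eq_one_of_mem hG (Multiset.mem_toFinset.1 hy), one_smul, norm_div, div_pow]
  rw [hsum]
  have h1 : ‖Q.coeff j‖ ≤ ∑ y ∈ s, ‖Q.eval y / G.derivative.eval y‖ * (G.natDegree * M) := by
    conv_lhs => rw [key, finsetSum_coeff]
    refine le_trans (norm_sum_le _ _) (Finset.sum_le_sum fun y hy => ?_)
    rw [coeff_C_mul, norm_mul]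
    exact mul_le_mul_of_nonneg_left (coeff_div_le G M hM y (hroot y hy) j) (norm_nonneg _)
  rw [← Finset.sum_mul] at h1
  have h2 : (∑ y ∈ s, ‖Q.eval y / G.derivative.eval y‖) ^ 2 ≤
      (s.card : ℝ) * ∑ y ∈ s, ‖Q.eval y / G.derivative.eval y‖ ^ 2 := sq_sum_le_card_mul_sum_sq
  rw [hscard] at h2
  calc ‖Q.coeff j‖ ^ 2 ≤ ((∑ y ∈ s, ‖Q.eval y / G.derivative.eval y‖) * (G.natDegree * M)) ^ 2 :=
        pow_le_pow_left₀ (norm_nonneg _) h1 2
    _ = (G.natDegree * M) ^ 2 * (∑ y ∈ s, ‖Q.eval y / G.derivative.eval y‖) ^ 2 := by ring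
    _ ≤ (G.natDegree * M) ^ 2 * ((G.natDegree : ℝ) * ∑ y ∈ s, ‖Q.eval y / G.derivative.eval y‖ ^ 2) :=
        mul_le_mul_of_nonneg_left h2 (by positivity)
    _ = _ := by ring

end Pool.Agent.Run7.h216.FH
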