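import Pool.Agent.Run7.h802.FH.Iface
import Pool.Agent.Run7.h216.BP.Form

/-! Project FH (helper802), piece SEP: the fibres of the projection of a smooth plane curve. -/

set_option autoImplicit false

namespace Pool.Agent.Run7.h216.FH

open Polynomial Pool.Agent.Run7.h802.HP Pool.Agent.Run7.h802.FH Pool.Agent.Run7.h216.BP

/-- restriction to a line -/
noncomputable def line (i : Fin 3) (p : Fin 3 → ℂ) : Fin 3 → ℂ[X] := fun j => if j = i then X else C (p j)

lemma line_der (i : Fin 3) (p : Fin 3 → ℂ) (P : MvPolynomial (Fin 3) ℂ) :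
    derivative (MvPolynomial.aeval (line i p) P) = MvPolynomial.aeval (line i p) (MvPolynomial.pderiv i P) := by
  induction P using MvPolynomial.induction_on with
  | C a =>
    rw [MvPolynomial.pderiv_C, map_zero, MvPolynomial.aeval_C]
    exact derivative_C
  | add p q hp hq => rw [map_add, derivative_add, hp, hq, map_add, map_add]
  | mul_X q j hq =>
    rw [map_mul, derivative_mul, hq, MvPolynomial.aeval_X, Derivation.leibniz, map_add, smul_eq_mul,
      smul_eq_mul, map_mul, map_mul, MvPolynomial.aeval_X, MvPolynomial.pderiv_X]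
    by_cases h : j = i
    · subst h
      rw [Pi.single_eq_same, map_one]
      unfold line
      rw [if_pos rfl, derivative_X]
      ring
    · rw [Pi.single_eq_of_ne (fun h1 => h h1), map_zero]
      unfold line
      rw [if_neg h, derivative_C]
      ring

lemma line_eval (i : Fin 3) (p : Fin 3 → ℂ) (P : MvPolynomial (Fin 3) ℂ) :
    eval (p i) (MvPolynomial.aeval (line i p) P) = MvPolynomial.eval p P := by
  induction P using MvPolynomial.induction_on with
  | C a =>
    rw [MvPolynomial.aeval_C, MvPolynomial.eval_C]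
    exact eval_C
  | add p q hp hq => rw [map_add, eval_add, hp, hq, map_add]
  | mul_X q j hq =>
    rw [map_mul, eval_mul, hq, MvPolynomial.aeval_X, map_mul, MvPolynomial.eval_X]
    congr 1
    unfold line
    by_cases h : j = i
    · subst h
      rw [if_pos rfl, eval_X]
    · rw [if_neg h, eval_C]

lemma eval_pd (i : Fin 3) (p : Fin 3 → ℂ) (P : MvPolynomial (Fin 3) ℂ) :
    MvPolynomial.eval p (MvPolynomial.pderiv i P) =
      eval (p i) (derivative (MvPolynomial.aeval (line i p) P)) := by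
  rw [line_der, line_eval]

section

variable {d : ℕ} (a : Mon 1 d → ℤ)

/-- the curve as a polynomial in two variables -/
noncomputable def biv : ℂ[X][X] :=
  ∑ m, C (C ((a m : ℤ) : ℂ) * X ^ ((m.1 1 : Fin (d + 1)) : ℕ)) * X ^ ((m.1 2 : Fin (d + 1)) : ℕ)

lemma biv_map (x : ℂ) : (biv a).map (evalRingHom x) = fib a x := by
  unfold biv fib
  simp [Polynomial.map_sum]

/-- the complex form -/
noncomputable def FF : MvPolynomial (Fin 3) ℂ := form (n := 1) (d := d) (fun m => ((a m : ℤ) : ℂ))

lemma aeval_FF (u : Fin 3 → ℂ[X]) : MvPolynomial.aeval u (FF a) =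
    ∑ m, C ((a m : ℤ) : ℂ) * (u 0 ^ ((m.1 0 : Fin (d + 1)) : ℕ) * u 1 ^ ((m.1 1 : Fin (d + 1)) : ℕ) *
      u 2 ^ ((m.1 2 : Fin (d + 1)) : ℕ)) := by
  unfold FF form
  rw [map_sum]
  refine Finset.sum_congr rfl fun m _ => ?_
  rw [map_mul, map_prod, MvPolynomial.aeval_C, Fin.prod_univ_three]
  simp only [map_pow, MvPolynomial.aeval_X]
  rfl

lemma FF_two (x y : ℂ) : MvPolynomial.aeval (line 2 ![1, x, y]) (FF a) = fib a x := by
  rw [aeval_FF]
  unfold fib line
  refine Finset.sum_congr rfl fun m _ => ?_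
  simp
  ring

lemma FF_one (x y : ℂ) : MvPolynomial.aeval (line 1 ![1, x, y]) (FF a) = (biv a).eval (C y) := by
  rw [aeval_FF]
  unfold biv line
  rw [eval_finsetSum]
  refine Finset.sum_congr rfl fun m _ => ?_
  simp
  ring

lemma sing_of (x y : ℂ) (h0 : (fib a x).eval y = 0) (h2 : (derivative (fib a x)).eval y = 0)
    (h1 : (derivative ((biv a).eval (C y))).eval x = 0) :
    Sing (n := 1) (d := d) (fun m => ((a m : ℤ) : ℂ)) (![1, x, y] : Fin 3 → ℂ) := by
  have e0 : MvPolynomial.eval (![1, x, y] : Fin 3 → ℂ) (FF a) = 0 := by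
    rw [← line_eval 2, FF_two]
    exact h0
  have e2 : MvPolynomial.eval (![1, x, y] : Fin 3 → ℂ) (MvPolynomial.pderiv 2 (FF a)) = 0 := by
    rw [eval_pd, FF_two]
    exact h2
  have e1 : MvPolynomial.eval (![1, x, y] : Fin 3 → ℂ) (MvPolynomial.pderiv 1 (FF a)) = 0 := by
    rw [eval_pd, FF_one]
    exact h1
  have e3 := congrArg (MvPolynomial.eval (![1, x, y] : Fin 3 → ℂ))
    ((form_hom (n := 1) (d := d) (fun m => ((a m : ℤ) : ℂ))).sum_X_mul_pderiv)
  change MvPolynomial.eval (![1, x, y] : Fin 3 → ℂ) (∑ i, MvPolynomial.X i * MvPolynomial.pderiv i (FF a)) =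
    MvPolynomial.eval (![1, x, y] : Fin 3 → ℂ) (d • FF a) at e3
  rw [Fin.sum_univ_three, map_add, map_add, map_mul, map_mul, map_mul, e1, e2, mul_zero, mul_zero, add_zero,
    add_zero, map_nsmul, e0, smul_zero, MvPolynomial.eval_X] at e3
  have e4 : MvPolynomial.eval (![1, x, y] : Fin 3 → ℂ) (MvPolynomial.pderiv 0 (FF a)) = 0 := by
    simpa using e3
  refine ⟨e0, ?_⟩
  intro i
  fin_cases i
  · exact e4
  · exact e1
  · exact e2

lemma biv_coeff (k : ℕ) : (biv a).coeff k =
    ∑ m : Mon 1 d, if k = ((m.1 2 : Fin (d + 1)) : ℕ) then C ((a m : ℤ) : ℂ) * X ^ ((m.1 1 : Fin (d + 1)) : ℕ) else 0 := by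
  unfold biv
  rw [finsetSum_coeff]
  refine Finset.sum_congr rfl fun m _ => ?_
  rw [coeff_C_mul_X_pow]

lemma biv_cc (m : Mon 1 d) : ((biv a).coeff ((m.1 2 : Fin (d + 1)) : ℕ)).coeff ((m.1 1 : Fin (d + 1)) : ℕ) =
    ((a m : ℤ) : ℂ) := by
  rw [biv_coeff, finsetSum_coeff, Finset.sum_eq_single m]
  · rw [if_pos rfl, coeff_C_mul_X_pow, if_pos rfl]
  · intro m' _ hm
    split_ifs with h
    · rw [coeff_C_mul_X_pow, if_neg]
      intro h1
      apply hm
      apply Subtype.ext
      have e1 := m.2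
      have e2 := m'.2
      rw [Fin.sum_univ_three] at e1 e2
      funext i
      apply Fin.ext
      fin_cases i
      · change ((m'.1 0 : Fin (d + 1)) : ℕ) = ((m.1 0 : Fin (d + 1)) : ℕ)
        omega
      · exact h1.symm
      · exact h.symm
    · rfl
  · intro h
    exact absurd (Finset.mem_univ _) h

lemma dz0 (A : ℂ) (k n : ℕ) (h : 2 ≤ k) :
    eval 0 (derivative (C A * ((X : ℂ[X]) ^ k * (C 1) ^ n))) = 0 := by
  rw [C_1, one_pow, mul_one, derivative_C_mul, derivative_X_pow, eval_mul, eval_mul, eval_pow, eval_X,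
    zero_pow (by omega : k - 1 ≠ 0), mul_zero, mul_zero]

lemma dz1 (A : ℂ) (k l n : ℕ) (h : 2 ≤ k + l) :
    eval 0 (derivative (C A * ((X : ℂ[X]) ^ k * (C 0) ^ l * (C 1) ^ n))) = 0 := by
  rcases Nat.eq_zero_or_pos l with h1 | h1
  · subst h1
    rw [pow_zero, mul_one]
    exact dz0 A k n (by omega)
  · rw [C_0, zero_pow (by omega)]
    simp

lemma dz2 (A : ℂ) (k l n : ℕ) (h : 2 ≤ k + l) :
    eval 0 (derivative (C A * ((C 0) ^ k * (X : ℂ[X]) ^ l * (C 1) ^ n))) = 0 := by
  rw [mul_comm ((C 0) ^ k : ℂ[X])]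
  exact dz1 A l k n (by omega)

lemma dz3 (A : ℂ) (k l n : ℕ) (h : 2 ≤ k + l) :
    eval 1 (derivative (C A * ((C 0) ^ k * (C 0) ^ l * (X : ℂ[X]) ^ n))) = 0 := by
  rw [← pow_add, C_0, zero_pow (by omega)]
  simp

lemma deg_part (hd : 3 ≤ d) (ha : GenSmooth a) : (biv a).coeff d ≠ 0 ∨ (biv a).coeff (d - 1) ≠ 0 := by
  by_contra hcon
  push Not at hcon
  obtain ⟨hc1, hc2⟩ := hcon
  have hA : ∀ m : Mon 1 d, ((a m : ℤ) : ℂ) = 0 ∨ 2 ≤ ((m.1 0 : Fin (d + 1)) : ℕ) + ((m.1 1 : Fin (d + 1)) : ℕ) := by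
    intro m
    by_contra h
    push Not at h
    obtain ⟨h1, h2⟩ := h
    apply h1
    have e1 := m.2
    rw [Fin.sum_univ_three] at e1
    rw [← biv_cc]
    rcases (by omega : ((m.1 2 : Fin (d + 1)) : ℕ) = d ∨ ((m.1 2 : Fin (d + 1)) : ℕ) = d - 1) with h3 | h3
    · rw [h3, hc1, coeff_zero]
    · rw [h3, hc2, coeff_zero]
  have hs : Sing (n := 1) (d := d) (fun m => ((a m : ℤ) : ℂ)) (![0, 0, 1] : Fin 3 → ℂ) := by
    have hz : ∀ m : Mon 1 d, ((a m : ℤ) : ℂ) * ((0 : ℂ) ^ ((m.1 0 : Fin (d + 1)) : ℕ) *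
        (0 : ℂ) ^ ((m.1 1 : Fin (d + 1)) : ℕ)) = 0 := by
      intro m
      rcases hA m with h | h
      · rw [h, zero_mul]
      · rcases Nat.eq_zero_or_pos ((m.1 0 : Fin (d + 1)) : ℕ) with h1 | h1
        · rw [zero_pow (n := ((m.1 1 : Fin (d + 1)) : ℕ)) (by omega), mul_zero, mul_zero]
        · rw [zero_pow (n := ((m.1 0 : Fin (d + 1)) : ℕ)) (by omega), zero_mul, mul_zero]
    have e0 : MvPolynomial.eval (![0, 0, 1] : Fin 3 → ℂ) (FF a) = 0 := by
      rw [← line_eval 2, aeval_FF, eval_finsetSum]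
      refine Finset.sum_eq_zero fun m _ => ?_
      unfold line
      have := hz m
      simpa using this
    have e1 : ∀ i : Fin 3, MvPolynomial.eval (![0, 0, 1] : Fin 3 → ℂ) (MvPolynomial.pderiv i (FF a)) = 0 := by
      intro i
      rw [eval_pd, aeval_FF, derivative_sum, eval_finsetSum]
      refine Finset.sum_eq_zero fun m _ => ?_
      rcases hA m with h | h
      · rw [h]
        simp
      · fin_cases i
        · exact dz1 _ _ _ _ h
        · exact dz2 _ _ _ _ h
        · exact dz3 _ _ _ _ h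
    exact ⟨e0, e1⟩
  have h1 := ha ℂ _ hs
  have h2 := congrFun h1 2
  simp at h2

lemma clear (P : (FractionRing ℂ[X])[X]) : ∃ (b : ℂ[X]) (P' : ℂ[X][X]), b ≠ 0 ∧
    P'.map (algebraMap ℂ[X] (FractionRing ℂ[X])) = C (algebraMap ℂ[X] (FractionRing ℂ[X]) b) * P := by
  obtain ⟨b, hb0, hb⟩ := IsLocalization.integerNormalization_spec (nonZeroDivisors ℂ[X]) P
  refine ⟨b, IsLocalization.integerNormalization (nonZeroDivisors ℂ[X]) P, nonZeroDivisors.ne_zero hb0, ?_⟩
  rw [hb, Algebra.smul_def]
  rfl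

lemma sep_part (ha : GenSmooth a) : ∃ (r : ℂ[X]) (U V : ℂ[X][X]), r ≠ 0 ∧
    U * biv a + V * derivative (biv a) = C r := by
  set K := FractionRing ℂ[X] with hK
  set φ := algebraMap ℂ[X] K with hφ
  have hφi : Function.Injective φ := IsFractionRing.injective ℂ[X] K
  have : CharZero K := charZero_of_injective_algebraMap hφi
  by_cases hs : ((biv a).map φ).Separable
  · obtain ⟨u, v, huv⟩ := hs
    obtain ⟨b, U, hb, hU⟩ := clear u
    obtain ⟨c, V, hc, hV⟩ := clear v
    refine ⟨b * c, C c * U, C b * V, mul_ne_zero hb hc, ?_⟩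
    apply Polynomial.map_injective φ hφi
    rw [Polynomial.map_add, Polynomial.map_mul, Polynomial.map_mul, Polynomial.map_mul, Polynomial.map_mul,
      hU, hV, map_C, map_C, map_C, ← derivative_map, map_mul, C_mul]
    linear_combination (C (φ b) * C (φ c)) * huv
  · exfalso
    have h1 : ∃ g w : K[X], (biv a).map φ = g ^ 2 * w ∧ 1 ≤ g.natDegree := by
      by_cases h0 : (biv a).map φ = 0
      · exact ⟨X, 0, by rw [h0, mul_zero], by rw [natDegree_X]⟩
      rw [PerfectField.separable_iff_squarefree] at hs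
      unfold Squarefree at hs
      push Not at hs
      obtain ⟨g, ⟨w, hw⟩, hg⟩ := hs
      refine ⟨g, w, by rw [hw, pow_two], ?_⟩
      by_contra h
      push Not at h
      have h2 : g.natDegree = 0 := by omega
      apply hg
      rw [eq_C_of_natDegree_eq_zero h2]
      refine isUnit_C.2 (isUnit_iff_ne_zero.2 ?_)
      intro h3
      apply h0
      rw [hw, eq_C_of_natDegree_eq_zero h2, h3]
      simp
    obtain ⟨g, w, hgw, hg⟩ := h1
    obtain ⟨b, G, hb, hG⟩ := clear g
    obtain ⟨c, W, hc, hW⟩ := clear w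
    have key : C (b ^ 2 * c) * biv a = G ^ 2 * W := by
      apply Polynomial.map_injective φ hφi
      rw [Polynomial.map_mul, Polynomial.map_mul, Polynomial.map_pow, hG, hW, map_C, hgw, map_mul, map_pow,
        C_mul, C_pow]
      ring
    have hGd : 1 ≤ G.natDegree := by
      rw [← natDegree_map_eq_of_injective hφi, hG, natDegree_C_mul]
      · exact hg
      · intro h
        exact hb (hφi (h.trans (map_zero φ).symm))
    have hG0 : G ≠ 0 := by
      rintro rfl
      simp at hGd
    have hprod : (b ^ 2 * c) * G.leadingCoeff ≠ 0 :=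
      mul_ne_zero (mul_ne_zero (pow_ne_zero _ hb) hc) (leadingCoeff_ne_zero.2 hG0)
    obtain ⟨x, hx⟩ := Infinite.exists_notMem_finset ((b ^ 2 * c) * G.leadingCoeff).roots.toFinset
    rw [Multiset.mem_toFinset, mem_roots hprod, IsRoot.def, eval_mul, mul_eq_zero, not_or] at hx
    obtain ⟨hx1, hx2⟩ := hx
    set e := b ^ 2 * c with he
    clear_value e
    have hdeg : (G.map (evalRingHom x)).degree ≠ 0 := by
      have h2 : (G.map (evalRingHom x)).natDegree = G.natDegree :=
        natDegree_map_of_leadingCoeff_ne_zero (evalRingHom x) hx2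
      intro h3
      have h4 := natDegree_eq_zero_iff_degree_le_zero.2 h3.le
      omega
    obtain ⟨y, hy⟩ := IsAlgClosed.exists_root _ hdeg
    have hy' : (G.map (evalRingHom x)).eval y = 0 := hy
    -- along the fibre
    have k1 : C (e.eval x) * fib a x = (G.map (evalRingHom x)) ^ 2 * W.map (evalRingHom x) := by
      have h2 := congrArg (Polynomial.map (evalRingHom x)) key
      rw [Polynomial.map_mul, Polynomial.map_mul, Polynomial.map_pow, map_C, biv_map] at h2
      exact h2
    have f0 : (fib a x).eval y = 0 := by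
      have h2 := congrArg (eval y) k1
      rw [eval_mul, eval_mul, eval_pow, eval_C, hy'] at h2
      rw [zero_pow two_ne_zero, zero_mul] at h2
      exact (mul_eq_zero.1 h2).resolve_left hx1
    have f2 : (derivative (fib a x)).eval y = 0 := by
      have h2 := congrArg (fun P => eval y (derivative P)) k1
      simp only [derivative_mul, derivative_pow, derivative_C, eval_mul, eval_add, eval_pow, eval_C, hy',
        f0] at h2
      simp at h2
      exact h2.resolve_left hx1
    have k2 : e * (biv a).eval (C y) = ((G.eval (C y)) ^ 2) * W.eval (C y) := by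
      have h2 := congrArg (eval (C y)) key
      rw [eval_mul, eval_mul, eval_pow, eval_C] at h2
      exact h2
    have hsw : ∀ P : ℂ[X][X], (P.eval (C y)).eval x = (P.map (evalRingHom x)).eval y := by
      intro P
      rw [eval_map]
      have h2 := eval₂_at_apply (p := P) (evalRingHom x) (C y)
      have h3 : (evalRingHom x) (C y) = y := by simp
      rw [h3] at h2
      exact h2.symm
    have f1 : (derivative ((biv a).eval (C y))).eval x = 0 := by
      have h2 := congrArg (fun P => eval x (derivative P)) k2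
      have h3 : (G.eval (C y)).eval x = 0 := by rw [hsw, hy']
      have h4 : ((biv a).eval (C y)).eval x = 0 := by rw [hsw, biv_map, f0]
      simp only [derivative_mul, derivative_pow, eval_mul, eval_add, eval_pow, h3, h4] at h2
      simp at h2
      exact h2.resolve_left hx1
    have hs := sing_of a x y f0 f2 f1
    have h5 := congrFun (ha ℂ _ hs) 0
    simp at h5

end

theorem t_SEP : S_SEP := by
  intro d hd a ha
  obtain ⟨r, U, V, hr, hUV⟩ := sep_part a ha
  obtain ⟨k, hk, hk0⟩ : ∃ k, d - 1 ≤ k ∧ (biv a).coeff k ≠ 0 := by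
    rcases deg_part a hd ha with h | h
    · exact ⟨d, by omega, h⟩
    · exact ⟨d - 1, le_refl _, h⟩
  refine ⟨(r * (biv a).coeff k).roots.toFinset, ?_⟩
  intro x hx
  rw [Multiset.mem_toFinset, mem_roots (mul_ne_zero hr hk0), IsRoot.def, eval_mul, mul_eq_zero, not_or] at hx
  obtain ⟨h1, h2⟩ := hx
  constructor
  · refine le_trans hk (le_natDegree_of_ne_zero ?_)
    rw [← biv_map, coeff_map]
    exact h2
  · apply nodup_roots
    have h3 := congrArg (Polynomial.map (evalRingHom x)) hUV
    rw [Polynomial.map_add, Polynomial.map_mul, Polynomial.map_mul, map_C, ← derivative_map, biv_map] at h3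
    refine ⟨C (r.eval x)⁻¹ * U.map (evalRingHom x), C (r.eval x)⁻¹ * V.map (evalRingHom x), ?_⟩
    have h4 : C (r.eval x)⁻¹ * C (r.eval x) = (1 : ℂ[X]) := by
      rw [← C_mul, inv_mul_cancel₀ h1, C_1]
    have h5 : (evalRingHom x) r = r.eval x := rfl
    rw [h5] at h3
    linear_combination C (r.eval x)⁻¹ * h3 + h4

end Pool.Agent.Run7.h216.FH
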