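import Pool.Agent.Run7.h216.FH.LAG
import Pool.Agent.Run7.h216.FH.SEP

/-! Project FH (helper802), piece PLA: lower bound for the norm (plane curves). -/

set_option autoImplicit false

namespace Pool.Agent.Run7.h216.FH

open Polynomial MeasureTheory Pool.Agent.Run7.h802.HP Pool.Agent.Run7.h802.FH

/-- the square of the norm on the disc -/
noncomputable def nd {d : ℕ} (v : Fin d → ℝ) : ℝ :=
  ∫ x in Metric.closedBall (0 : ℂ) 1, ‖∑ i : Fin d, (v i : ℂ) * x ^ (i : ℕ)‖ ^ 2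

lemma nd_cont (d : ℕ) : Continuous (nd (d := d)) := by
  unfold nd
  refine continuous_parametric_integral_of_continuous (f := fun (v : Fin d → ℝ) (x : ℂ) =>
    ‖∑ i : Fin d, (v i : ℂ) * x ^ (i : ℕ)‖ ^ 2) ?_ (isCompact_closedBall _ _)
  unfold Function.uncurry
  fun_prop

lemma nd_smul {d : ℕ} (t : ℝ) (v : Fin d → ℝ) : nd (fun i => t * v i) = t ^ 2 * nd v := by
  unfold nd
  rw [← integral_const_mul]
  refine integral_congr_ae (Filter.Eventually.of_forall fun x => ?_)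
  change ‖∑ i : Fin d, ((t * v i : ℝ) : ℂ) * x ^ (i : ℕ)‖ ^ 2 = t ^ 2 * ‖∑ i : Fin d, (v i : ℂ) * x ^ (i : ℕ)‖ ^ 2
  have h1 : ∑ i : Fin d, ((t * v i : ℝ) : ℂ) * x ^ (i : ℕ) = (t : ℂ) * ∑ i : Fin d, (v i : ℂ) * x ^ (i : ℕ) := by
    rw [Finset.mul_sum]
    refine Finset.sum_congr rfl fun i _ => ?_
    push_cast
    ring
  rw [h1, norm_mul, mul_pow, Complex.norm_real, Real.norm_eq_abs, sq_abs]

lemma nd_int {d : ℕ} (v : Fin d → ℝ) : IntegrableOn (fun x : ℂ => ‖∑ i : Fin d, (v i : ℂ) * x ^ (i : ℕ)‖ ^ 2)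
    (Metric.closedBall (0 : ℂ) 1) := by
  refine ContinuousOn.integrableOn_compact (isCompact_closedBall _ _) (Continuous.continuousOn ?_)
  fun_prop

lemma nd_pos {d : ℕ} (v : Fin d → ℝ) (hv : v ≠ 0) : 0 < nd v := by
  unfold nd
  rw [setIntegral_pos_iff_support_of_nonneg_ae (Filter.Eventually.of_forall fun x => by positivity) (nd_int v)]
  let P : ℂ[X] := ∑ i : Fin d, C ((v i : ℂ)) * X ^ (i : ℕ)
  have hP : P ≠ 0 := by
    intro h0
    apply hv
    funext i
    have h1 := congrArg (fun Q => Q.coeff (i : ℕ)) h0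
    simp only [P, finsetSum_coeff, coeff_C_mul, coeff_X_pow, coeff_zero, mul_ite, mul_one, mul_zero] at h1
    rw [Finset.sum_eq_single i] at h1
    · rw [if_pos rfl] at h1
      exact_mod_cast h1
    · intro b _ hb
      rw [if_neg]
      intro h
      exact hb (Fin.ext h.symm)
    · intro h
      exact absurd (Finset.mem_univ _) h
  have hsub : Metric.closedBall (0 : ℂ) 1 \ (P.roots.toFinset : Set ℂ) ⊆
      Function.support (fun x : ℂ => ‖∑ i : Fin d, (v i : ℂ) * x ^ (i : ℕ)‖ ^ 2) ∩ Metric.closedBall (0 : ℂ) 1 := by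
    rintro x ⟨h1, h2⟩
    refine ⟨?_, h1⟩
    rw [Function.mem_support]
    intro h3
    apply h2
    rw [Finset.mem_coe, Multiset.mem_toFinset, mem_roots hP, IsRoot.def]
    have h4 : ∑ i : Fin d, (v i : ℂ) * x ^ (i : ℕ) = 0 := by
      rw [← norm_eq_zero]
      exact pow_eq_zero_iff two_ne_zero |>.1 h3
    simp only [P, eval_finsetSum, eval_mul, eval_C, eval_pow, eval_X]
    exact h4
  refine lt_of_lt_of_le ?_ (measure_mono hsub)
  rw [measure_sdiff_null (Set.Finite.measure_zero (Finset.finite_toSet _) _)]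
  exact Metric.measure_closedBall_pos _ _ zero_lt_one

lemma nd_lower (d : ℕ) : ∃ κ : ℝ, 0 < κ ∧ ∀ v : Fin d → ℝ, κ * ∑ i, v i ^ 2 ≤ nd v := by
  rcases Nat.eq_zero_or_pos d with rfl | hd
  · refine ⟨1, one_pos, fun v => ?_⟩
    rw [Finset.univ_eq_empty, Finset.sum_empty, mul_zero]
    unfold nd
    exact integral_nonneg fun x => by positivity
  let K : Set (Fin d → ℝ) := {v | ∑ i, v i ^ 2 = 1}
  have hKc : IsCompact K := by
    refine Metric.isCompact_of_isClosed_isBounded ?_ ?_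
    · exact isClosed_eq (by fun_prop) continuous_const
    · refine (Metric.isBounded_iff_subset_closedBall (0 : Fin d → ℝ)).2 ⟨1, ?_⟩
      intro v hv
      rw [mem_closedBall_zero_iff, pi_norm_le_iff_of_nonneg zero_le_one]
      intro i
      have h1 : v i ^ 2 ≤ ∑ i, v i ^ 2 := Finset.single_le_sum (f := fun i => v i ^ 2)
        (fun _ _ => sq_nonneg _) (Finset.mem_univ i)
      rw [show ∑ i, v i ^ 2 = 1 from hv] at h1
      rw [Real.norm_eq_abs]
      exact abs_le_one_iff_mul_self_le_one.2 (by nlinarith)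
  have hKn : K.Nonempty := by
    refine ⟨Pi.single ⟨0, hd⟩ 1, ?_⟩
    change ∑ i, (Pi.single (⟨0, hd⟩ : Fin d) (1 : ℝ) : Fin d → ℝ) i ^ 2 = 1
    rw [Finset.sum_eq_single ⟨0, hd⟩]
    · simp
    · intro b _ hb
      rw [Pi.single_eq_of_ne hb]
      norm_num
    · intro h
      exact absurd (Finset.mem_univ _) h
  obtain ⟨w, hw, hmin⟩ := hKc.exists_isMinOn hKn (nd_cont d).continuousOn
  have hw0 : w ≠ 0 := by
    rintro rfl
    have h1 : ∑ i : Fin d, (0 : Fin d → ℝ) i ^ 2 = 1 := hw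
    simp at h1
  refine ⟨nd w, nd_pos w hw0, fun v => ?_⟩
  by_cases hv : ∑ i, v i ^ 2 = 0
  · rw [hv, mul_zero]
    unfold nd
    exact integral_nonneg fun x => by positivity
  have hpos : 0 < ∑ i, v i ^ 2 := lt_of_le_of_ne (Finset.sum_nonneg fun _ _ => sq_nonneg _) (Ne.symm hv)
  set t := Real.sqrt (∑ i, v i ^ 2) with ht
  have ht0 : 0 < t := Real.sqrt_pos.2 hpos
  have ht2 : t ^ 2 = ∑ i, v i ^ 2 := Real.sq_sqrt hpos.le
  have hu : (fun i => t⁻¹ * v i) ∈ K := by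
    change ∑ i, (t⁻¹ * v i) ^ 2 = 1
    simp_rw [mul_pow]
    rw [← Finset.mul_sum, ← ht2, inv_pow, inv_mul_cancel₀ (by positivity)]
  have h1 : nd w ≤ nd (fun i => t⁻¹ * v i) := hmin hu
  rw [nd_smul] at h1
  rw [← ht2]
  have h2 : t⁻¹ ^ 2 * nd v * t ^ 2 = nd v := by
    field_simp
  calc nd w * t ^ 2 ≤ t⁻¹ ^ 2 * nd v * t ^ 2 := mul_le_mul_of_nonneg_right h1 (by positivity)
    _ = nd v := h2

/-- the coefficients of the numerator -/
noncomputable def wv {d : ℕ} (v : Idx d → ℝ) (j : Fin d) (i : Fin d) : ℝ :=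
  if h : (i : ℕ) + j + 3 ≤ d then v ⟨(i, j), h⟩ else 0

lemma sum_wv {d : ℕ} (v : Idx d → ℝ) : ∑ s, v s ^ 2 = ∑ j, ∑ i, wv v j i ^ 2 := by
  rw [← Finset.sum_product', Finset.univ_product_univ]
  refine Fintype.sum_of_injective (fun s : Idx d => ((s.1.2, s.1.1) : Fin d × Fin d)) ?_ _ _ ?_ ?_
  · intro s t h
    apply Subtype.ext
    have h1 := congrArg Prod.fst h
    have h2 := congrArg Prod.snd h
    exact Prod.ext h2 h1
  · rintro ⟨j, i⟩ h
    unfold wv
    rw [dif_neg, zero_pow two_ne_zero]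
    intro h1
    exact h ⟨⟨(i, j), h1⟩, rfl⟩
  · intro s
    unfold wv
    rw [dif_pos s.2]

lemma num_coeff {d : ℕ} (v : Idx d → ℝ) (x : ℂ) (j : Fin d) :
    (num v x).coeff j = ∑ i : Fin d, (wv v j i : ℂ) * x ^ (i : ℕ) := by
  unfold num
  simp only [finsetSum_coeff, coeff_C_mul, coeff_X_pow, mul_ite, mul_one, mul_zero]
  rw [← Finset.sum_filter]
  refine Finset.sum_bij_ne_zero (fun s _ _ => s.1.1) (fun s _ _ => Finset.mem_univ _) ?_ ?_ ?_
  · intro s hs _ t ht _ h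
    apply Subtype.ext
    refine Prod.ext h (Fin.ext ?_)
    rw [← (Finset.mem_filter.1 hs).2, ← (Finset.mem_filter.1 ht).2]
  · intro i _ hi
    have h1 : (i : ℕ) + j + 3 ≤ d := by
      by_contra h
      apply hi
      unfold wv
      rw [dif_neg h]
      simp
    refine ⟨⟨(i, j), h1⟩, Finset.mem_filter.2 ⟨Finset.mem_univ _, rfl⟩, ?_, rfl⟩
    unfold wv at hi
    rw [dif_pos h1] at hi
    exact hi
  · intro s hs _
    have h1 : j = s.1.2 := Fin.ext (Finset.mem_filter.1 hs).2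
    subst h1
    unfold wv
    rw [dif_pos s.2]

lemma num_deg {d : ℕ} (hd : 3 ≤ d) (v : Idx d → ℝ) (x : ℂ) : (num v x).natDegree ≤ d - 3 := by
  unfold num
  refine natDegree_sum_le_of_forall_le _ _ fun s _ => ?_
  refine le_trans (natDegree_C_mul_X_pow_le _ _) ?_
  have := s.2
  omega

lemma fib_deg {d : ℕ} (a : Mon 1 d → ℤ) (x : ℂ) : (fib a x).natDegree ≤ d := by
  unfold fib
  refine natDegree_sum_le_of_forall_le _ _ fun s _ => ?_
  refine le_trans (natDegree_C_mul_X_pow_le _ _) ?_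
  have := (s.1 2).2
  omega

lemma fib_coeff_le {d : ℕ} (a : Mon 1 d → ℤ) (M : ℝ) (hM0 : 0 ≤ M) (hM : ∀ m, |(a m : ℝ)| ≤ M) (x : ℂ)
    (hx : ‖x‖ ≤ 1) (k : ℕ) : ‖(fib a x).coeff k‖ ≤ (Fintype.card (Mon 1 d) + 1) * M := by
  unfold fib
  rw [finsetSum_coeff]
  calc ‖∑ m, (C ((a m : ℂ) * x ^ ((m.1 1 : Fin (d + 1)) : ℕ)) * X ^ ((m.1 2 : Fin (d + 1)) : ℕ)).coeff k‖
      ≤ ∑ m, ‖(C ((a m : ℂ) * x ^ ((m.1 1 : Fin (d + 1)) : ℕ)) * X ^ ((m.1 2 : Fin (d + 1)) : ℕ)).coeff k‖ :=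
        norm_sum_le _ _
    _ ≤ ∑ m : Mon 1 d, M := by
        refine Finset.sum_le_sum fun m _ => ?_
        rw [coeff_C_mul_X_pow]
        split_ifs with h
        · rw [norm_mul, norm_pow]
          have h1 : ‖((a m : ℤ) : ℂ)‖ ≤ M := by
            rw [Complex.norm_intCast]
            exact hM m
          calc ‖((a m : ℤ) : ℂ)‖ * ‖x‖ ^ ((m.1 1 : Fin (d + 1)) : ℕ) ≤ M * 1 :=
                mul_le_mul h1 (pow_le_one₀ (norm_nonneg _) hx) (by positivity) hM0
            _ = M := mul_one M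
        · rw [norm_zero]
          exact hM0
    _ = (Fintype.card (Mon 1 d) : ℝ) * M := by
        rw [Finset.sum_const, Finset.card_univ, nsmul_eq_mul]
    _ ≤ _ := by
        refine mul_le_mul_of_nonneg_right ?_ hM0
        linarith

theorem t_PLA (hSEP : S_SEP) : S_PLA := by
  intro d hd
  obtain ⟨κ1, hκ1, h1⟩ := nd_lower d
  set c : ℝ := (Fintype.card (Mon 1 d) : ℝ) + 1 with hc
  have hc0 : 0 < c := by positivity
  have hd0 : (0 : ℝ) < d := by exact_mod_cast (by omega : 0 < d)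
  set κ0 : ℝ := 1 / ((d : ℝ) ^ 4 * c ^ 2) with hκ0
  have hκ0' : 0 < κ0 := by positivity
  refine ⟨min (κ0 * κ1) 1, by positivity, min_le_right _ _, ?_⟩
  intro a ha M hM haM v
  have hM0 : 0 < M := lt_of_lt_of_le one_pos hM
  obtain ⟨T, hT⟩ := hSEP d hd a ha
  set S : ℂ → ℝ := fun x => (((fib a x).roots.map fun y =>
    ‖(num v x).eval y‖ ^ 2 / ‖(fib a x).derivative.eval y‖ ^ 2).sum) with hS
  have hpt : ∀ x ∉ T, ‖x‖ ≤ 1 → κ0 / M ^ 2 * ∑ j : Fin d, ‖∑ i : Fin d, (wv v j i : ℂ) * x ^ (i : ℕ)‖ ^ 2 ≤ S x := by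
    intro x hx hx1
    obtain ⟨h2, h3⟩ := hT x hx
    have hS0 : 0 ≤ S x := by
      refine Multiset.sum_nonneg ?_
      intro r hr
      obtain ⟨y, _, rfl⟩ := Multiset.mem_map.1 hr
      positivity
    have h4 : ∀ j : Fin d, ‖∑ i : Fin d, (wv v j i : ℂ) * x ^ (i : ℕ)‖ ^ 2 ≤ (d : ℝ) ^ 3 * (c * M) ^ 2 * S x := by
      intro j
      rw [← num_coeff]
      have h5 := t_LAG (fib a x) (num v x) (c * M) (lt_of_le_of_lt (num_deg hd v x) (by omega)) h3
        (fib_coeff_le a M hM0.le haM x hx1) j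
      refine le_trans h5 ?_
      refine mul_le_mul_of_nonneg_right ?_ hS0
      refine mul_le_mul_of_nonneg_right ?_ (by positivity)
      exact pow_le_pow_left₀ (by positivity) (by exact_mod_cast fib_deg a x) 3
    calc κ0 / M ^ 2 * ∑ j : Fin d, ‖∑ i : Fin d, (wv v j i : ℂ) * x ^ (i : ℕ)‖ ^ 2
        ≤ κ0 / M ^ 2 * ∑ j : Fin d, (d : ℝ) ^ 3 * (c * M) ^ 2 * S x :=
          mul_le_mul_of_nonneg_left (Finset.sum_le_sum fun j _ => h4 j) (by positivity)
      _ = S x := by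
          rw [Finset.sum_const, Finset.card_univ, Fintype.card_fin, nsmul_eq_mul, hκ0]
          field_simp
  have hint : ∀ j : Fin d, IntegrableOn (fun x : ℂ => ‖∑ i : Fin d, (wv v j i : ℂ) * x ^ (i : ℕ)‖ ^ 2)
      (Metric.closedBall (0 : ℂ) 1) := fun j => nd_int _
  have hTnull : volume (T : Set ℂ) = 0 := Set.Finite.measure_zero (Finset.finite_toSet _) _
  calc ENNReal.ofReal (min (κ0 * κ1) 1 / M ^ 2 * ∑ s, v s ^ 2)
      ≤ ENNReal.ofReal (κ0 / M ^ 2 * ∑ j : Fin d, nd (wv v j)) := by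
        refine ENNReal.ofReal_le_ofReal ?_
        rw [sum_wv]
        calc min (κ0 * κ1) 1 / M ^ 2 * ∑ j, ∑ i, wv v j i ^ 2
            ≤ κ0 * κ1 / M ^ 2 * ∑ j, ∑ i, wv v j i ^ 2 := by
              refine mul_le_mul_of_nonneg_right ?_ (Finset.sum_nonneg fun _ _ => Finset.sum_nonneg fun _ _ => sq_nonneg _)
              exact div_le_div_of_nonneg_right (min_le_left _ _) (by positivity)
          _ = κ0 / M ^ 2 * ∑ j, κ1 * ∑ i, wv v j i ^ 2 := by
              rw [← Finset.mul_sum]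
              ring
          _ ≤ κ0 / M ^ 2 * ∑ j : Fin d, nd (wv v j) :=
              mul_le_mul_of_nonneg_left (Finset.sum_le_sum fun j _ => h1 _) (by positivity)
    _ = ENNReal.ofReal (∫ x in Metric.closedBall (0 : ℂ) 1,
          κ0 / M ^ 2 * ∑ j : Fin d, ‖∑ i : Fin d, (wv v j i : ℂ) * x ^ (i : ℕ)‖ ^ 2) := by
        rw [integral_const_mul, integral_finsetSum _ fun j _ => hint j]
        rfl
    _ = ∫⁻ x in Metric.closedBall (0 : ℂ) 1, ENNReal.ofReal
          (κ0 / M ^ 2 * ∑ j : Fin d, ‖∑ i : Fin d, (wv v j i : ℂ) * x ^ (i : ℕ)‖ ^ 2) := by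
        refine ofReal_integral_eq_lintegral_ofReal ?_ (Filter.Eventually.of_forall fun x => by positivity)
        exact (integrable_finsetSum _ fun j _ => hint j).const_mul _
    _ ≤ ∫⁻ x in Metric.closedBall (0 : ℂ) 1, ENNReal.ofReal (S x) := by
        refine lintegral_mono_ae ?_
        rw [ae_restrict_iff' measurableSet_closedBall]
        have hae : ∀ᵐ x : ℂ, x ∉ (T : Set ℂ) := measure_eq_zero_iff_ae_notMem.1 hTnull
        filter_upwards [hae] with x hx hx1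
        exact ENNReal.ofReal_le_ofReal (hpt x (by exact_mod_cast hx) (by simpa using hx1))
    _ ≤ ∫⁻ x, ENNReal.ofReal (S x) := setLIntegral_le_lintegral _ _
    _ = energyP a v := rfl

/-- PLA without hypotheses. -/
theorem t_PLA' : S_PLA := t_PLA t_SEP

end Pool.Agent.Run7.h216.FH
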